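import Pool.Agent.V11232.GI.Comp

namespace Pool.Agent.Results.MP_c0e261_lc.EmptinessUndecidable

open Pool.Agent.V11232.GI

/-- The emptiness problem for global index grammars is undecidable. -/
theorem result : ¬ ComputablePred fun G : GIG => ∀ w, w ∉ lang G := by
  intro hc
  obtain ⟨F, hF, -, -, -, hD⟩ := Pool.Agent.Helper247.Elem.family
  have key : ∀ n, (Pool.Agent.Helper247.Univ.u n).Dom ↔ ¬ ∀ w, w ∉ lang (gr (F n)) := by
    intro n
    rw [← hD n]
    constructor
    · rintro ⟨v, h0, h1, h2⟩ h3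
      obtain ⟨w, hw⟩ := complete (F n).1 (F n).2 h0 h1 h2
      exact h3 w hw
    · intro h
      push Not at h
      obtain ⟨w, hw⟩ := h
      obtain ⟨v, h0, h1, h2⟩ := sound (F n).1 (F n).2 hw
      exact ⟨v, h0, h1, h2⟩
  refine Pool.Agent.Helper247.Univ.u_not_computable ?_
  have h1 : ComputablePred fun n => ∀ w, w ∉ lang (gr (F n)) := by
    have hgr : Computable fun n => gr (F n) := gr_primrec.to_comp.comp hF
    obtain ⟨D, hD'⟩ := hc
    exact ⟨fun n => D (gr (F n)), hD'.comp hgr⟩
  have h2 := h1.not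
  refine h2.of_eq ?_
  intro n
  exact (key n).symm

end Pool.Agent.Results.MP_c0e261_lc.EmptinessUndecidable
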